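import Pool.Agent.U339.SA.Defs

set_option autoImplicit false

/-!
The periodic points of the 3x+1 map on the rational numbers with odd denominator and the parity words.
-/

namespace Pool.Agent.U339.SA

open Finset

lemma num_mul {m d : ℤ} (hd : d ≠ 0) : ((m : ℚ) / d).num * d = m * ((m : ℚ) / d).den := by
  have h := Rat.num_div_den ((m : ℚ) / d)
  have hd' : (d : ℚ) ≠ 0 := by exact_mod_cast hd
  have hden : ((((m : ℚ) / d).den : ℕ) : ℚ) ≠ 0 := by exact_mod_cast ((m : ℚ) / d).den_nz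
  rw [div_eq_div_iff hden hd'] at h
  exact_mod_cast h

lemma odd_ne {d : ℤ} (hd : Odd d) : d ≠ 0 := by
  rintro rfl
  exact absurd hd (by decide)

lemma odd_den {m d : ℤ} (hd : Odd d) : Odd ((m : ℚ) / d).den := by
  have h := Rat.den_dvd m d
  rw [Rat.divInt_eq_div] at h
  have h2 : Odd ((((m : ℚ) / d).den : ℕ) : ℤ) := by
    obtain ⟨k, hk⟩ := h
    rw [hk] at hd
    exact (Int.odd_mul.1 hd).1
  exact_mod_cast h2

lemma even_num_iff {m d : ℤ} (hd : Odd d) : Even ((m : ℚ) / d).num ↔ Even m := by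
  have h := num_mul (m := m) (odd_ne hd)
  have hden : Odd ((((m : ℚ) / d).den : ℕ) : ℤ) := by exact_mod_cast odd_den (m := m) hd
  constructor
  · intro he
    have h1 : Even (m * ((((m : ℚ) / d).den : ℕ) : ℤ)) := by rw [← h]; exact he.mul_right _
    rcases Int.even_mul.1 h1 with h2 | h2
    · exact h2
    · exact absurd h2 (Int.not_even_iff_odd.2 hden)
  · intro he
    have h1 : Even (((m : ℚ) / d).num * d) := by rw [h]; exact he.mul_right _
    rcases Int.even_mul.1 h1 with h2 | h2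
    · exact h2
    · exact absurd h2 (Int.not_even_iff_odd.2 hd)

/-- the number of the `i < n` with `b i` -/
def O (b : ℕ → Bool) : ℕ → ℕ
  | 0 => 0
  | n + 1 => O b n + (if b n then 1 else 0)

/-- the constant term -/
def C (a : ℕ) (b : ℕ → Bool) : ℕ → ℕ
  | 0 => 0
  | n + 1 => if b n then a * C a b n + 2 ^ n else C a b n

lemma O_succ (b : ℕ → Bool) (n : ℕ) : O b (n + 1) = O b n + (if b n then 1 else 0) := rfl

lemma C_succ (a : ℕ) (b : ℕ → Bool) (n : ℕ) :
    C a b (n + 1) = if b n then a * C a b n + 2 ^ n else C a b n := rfl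

/-- one step with prescribed parity -/
def step (a : ℕ) (b : Bool) (x : ℚ) : ℚ := if b then (a * x + 1) / 2 else x / 2

/-- the parity -/
def par (x : ℚ) : Bool := decide (¬ Even x.num)

lemma T_eq (a : ℕ) (x : ℚ) : T a x = step a (par x) x := by
  unfold T step par
  by_cases h : Even x.num <;> simp [h]

lemma affine (a : ℕ) (b : ℕ → Bool) (y : ℕ → ℚ) (n : ℕ)
    (h : ∀ i < n, y (i + 1) = step a (b i) (y i)) :
    y n = (a ^ O b n * y 0 + C a b n) / 2 ^ n := by
  induction n with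
  | zero => simp [O, C]
  | succ n ih =>
    rw [h n (Nat.lt_succ_self n), ih fun i hi => h i (by omega), O_succ, C_succ]
    unfold step
    by_cases hb : b n = true
    · simp only [hb, if_true]
      push_cast
      field_simp
      ring
    · have hb' : b n = false := by simpa using hb
      simp only [hb', Bool.false_eq_true, if_false, add_zero]
      field_simp
      ring

lemma O_le (b : ℕ → Bool) (n : ℕ) : O b n ≤ n := by
  induction n with
  | zero => simp [O]
  | succ n ih => rw [O_succ]; split_ifs <;> omega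

lemma odd_M {a : ℕ} (ha : Odd a) {p : ℕ} (hp : 1 ≤ p) (o : ℕ) : Odd ((2 : ℤ) ^ p - a ^ o) := by
  have h1 : Even ((2 : ℤ) ^ p) := (Int.even_pow.2 ⟨by decide, by omega⟩)
  have h2 : Odd ((a : ℤ) ^ o) := Odd.pow (by exact_mod_cast ha)
  exact h1.sub_odd h2

lemma M_ne {a : ℕ} (ha : Odd a) {p : ℕ} (hp : 1 ≤ p) (o : ℕ) : (2 : ℚ) ^ p - a ^ o ≠ 0 := by
  have h := odd_ne (odd_M ha hp o)
  exact_mod_cast h

lemma fixed {a : ℕ} (ha : Odd a) {b : ℕ → Bool} {y : ℕ → ℚ} {p : ℕ} (hp : 1 ≤ p)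
    (h : ∀ i < p, y (i + 1) = step a (b i) (y i)) (hy : y p = y 0) :
    y 0 = (((C a b p : ℕ) : ℤ) : ℚ) / (((2 : ℤ) ^ p - a ^ O b p : ℤ) : ℚ) := by
  have h1 := affine a b y p h
  rw [hy] at h1
  have h2 := M_ne ha hp (O b p)
  have h3 : ((2 : ℚ) ^ p) ≠ 0 := by positivity
  rw [eq_div_iff h3] at h1
  push_cast
  rw [eq_div_iff h2]
  linarith

lemma C_parity {a : ℕ} (ha : Odd a) (b : ℕ → Bool) (n : ℕ) : Even (C a b (n + 1)) ↔ b 0 = false := by
  induction n with
  | zero =>
    rw [C_succ]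
    by_cases hb : b 0 = true
    · simp [hb, C]
    · have hb' : b 0 = false := by simpa using hb
      simp [hb', C]
  | succ n ih =>
    rw [← ih, C_succ]
    by_cases hb : b (n + 1) = true
    · simp only [hb, if_true]
      rw [Nat.even_add, Nat.even_mul]
      have h2 : Even (2 ^ (n + 1)) := by
        rw [Nat.even_pow]; exact ⟨by decide, by omega⟩
      simp only [h2, iff_true]
      constructor
      · rintro (h | h)
        · exact absurd h (Nat.not_even_iff_odd.2 ha)
        · exact h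
      · exact Or.inr
    · have hb' : b (n + 1) = false := by simpa using hb
      simp only [hb', Bool.false_eq_true, if_false]

/-- the orbit with prescribed parities -/
def orb (a : ℕ) (b : ℕ → Bool) (x : ℚ) : ℕ → ℚ
  | 0 => x
  | n + 1 => step a (b n) (orb a b x n)

/-- the periodic point with the parity word `b 0, …, b (p - 1)` -/
def pt (a p : ℕ) (b : ℕ → Bool) : ℚ :=
  (((C a b p : ℕ) : ℤ) : ℚ) / (((2 : ℤ) ^ p - a ^ O b p : ℤ) : ℚ)

lemma orb_pt {a : ℕ} (ha : Odd a) {p : ℕ} (hp : 1 ≤ p) (b : ℕ → Bool) :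
    orb a b (pt a p b) p = pt a p b := by
  have h1 := affine a b (orb a b (pt a p b)) p fun i _ => rfl
  rw [h1]
  change (a ^ O b p * pt a p b + C a b p) / 2 ^ p = pt a p b
  unfold pt
  have h2 := M_ne ha hp (O b p)
  push_cast
  rw [div_eq_iff (by positivity)]
  field_simp
  ring

lemma orb_shift (a : ℕ) (b : ℕ → Bool) (x : ℚ) (i n : ℕ) :
    orb a (fun k => b (k + i)) (orb a b x i) n = orb a b x (n + i) := by
  induction n with
  | zero => simp [orb]
  | succ n ih =>
    rw [show n + 1 + i = (n + i) + 1 by ring]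
    change step a (b (n + i)) (orb a (fun k => b (k + i)) (orb a b x i) n) =
      step a (b (n + i)) (orb a b x (n + i))
    rw [ih]

lemma orb_periodic {a : ℕ} (ha : Odd a) {p : ℕ} (hp : 1 ≤ p) {b : ℕ → Bool}
    (hb : ∀ i, b (i + p) = b i) (i : ℕ) :
    orb a b (pt a p b) (i + p) = orb a b (pt a p b) i := by
  have h := orb_shift a b (pt a p b) p i
  rw [← h, orb_pt ha hp b]
  have : (fun k => b (k + p)) = b := funext hb
  rw [this]

/-- every point of the orbit is the periodic point of the shifted word -/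
lemma orb_eq_pt {a : ℕ} (ha : Odd a) {p : ℕ} (hp : 1 ≤ p) {b : ℕ → Bool}
    (hb : ∀ i, b (i + p) = b i) (i : ℕ) :
    orb a b (pt a p b) i = pt a p (fun k => b (k + i)) := by
  have h := fixed (b := fun k => b (k + i)) (y := fun n => orb a b (pt a p b) (n + i)) ha hp
    (fun n _ => by
      change orb a b (pt a p b) (n + 1 + i) = step a (b (n + i)) (orb a b (pt a p b) (n + i))
      rw [show n + 1 + i = (n + i) + 1 by ring]
      rfl) (by
      change orb a b (pt a p b) (p + i) = orb a b (pt a p b) (0 + i)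
      rw [add_comm p i, orb_periodic ha hp hb, zero_add])
  have h2 : orb a b (pt a p b) i = pt a p (fun k => b (k + i)) := by
    rw [show pt a p (fun k => b (k + i)) = (((C a (fun k => b (k + i)) p : ℕ) : ℤ) : ℚ) /
      (((2 : ℤ) ^ p - a ^ O (fun k => b (k + i)) p : ℤ) : ℚ) from rfl, ← h]
    simp
  exact h2

lemma par_pt {a : ℕ} (ha : Odd a) {p : ℕ} (hp : 1 ≤ p) (b : ℕ → Bool) : par (pt a p b) = b 0 := by
  have h0 : Even (pt a p b).num ↔ b 0 = false := by
    unfold pt
    rw [even_num_iff (odd_M ha hp _)]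
    obtain ⟨n, rfl⟩ : ∃ n, p = n + 1 := ⟨p - 1, by omega⟩
    rw [Int.even_coe_nat, C_parity ha b n]
  unfold par
  rw [Bool.eq_iff_iff, decide_eq_true_iff, h0]
  simp

lemma odd_den_pt {a : ℕ} (ha : Odd a) {p : ℕ} (hp : 1 ≤ p) (b : ℕ → Bool) : Odd (pt a p b).den :=
  odd_den (odd_M ha hp _)

lemma iter_pt {a : ℕ} (ha : Odd a) {p : ℕ} (hp : 1 ≤ p) {b : ℕ → Bool}
    (hb : ∀ i, b (i + p) = b i) (i : ℕ) :
    (T a)^[i] (pt a p b) = orb a b (pt a p b) i := by
  induction i with
  | zero => rfl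
  | succ i ih =>
    rw [Function.iterate_succ_apply', ih, T_eq]
    change _ = step a (b i) (orb a b (pt a p b) i)
    congr 1
    rw [orb_eq_pt ha hp hb, par_pt ha hp]
    simp

lemma par_iter_pt {a : ℕ} (ha : Odd a) {p : ℕ} (hp : 1 ≤ p) {b : ℕ → Bool}
    (hb : ∀ i, b (i + p) = b i) (i : ℕ) :
    par ((T a)^[i] (pt a p b)) = b i := by
  rw [iter_pt ha hp hb, orb_eq_pt ha hp hb, par_pt ha hp]
  simp

lemma isPer_pt {a : ℕ} (ha : Odd a) {p : ℕ} (hp : 1 ≤ p) {b : ℕ → Bool}
    (hb : ∀ i, b (i + p) = b i) : IsPer a p (pt a p b) := by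
  refine ⟨odd_den_pt ha hp b, ?_⟩
  rw [iter_pt ha hp hb, orb_pt ha hp]

lemma eq_pt {a : ℕ} (ha : Odd a) {p : ℕ} (hp : 1 ≤ p) {x : ℚ} (hx : (T a)^[p] x = x) :
    x = pt a p (fun i => par ((T a)^[i] x)) := by
  have h := fixed (b := fun i => par ((T a)^[i] x)) (y := fun i => (T a)^[i] x) ha hp (fun i _ => by
    rw [Function.iterate_succ_apply', T_eq]) (by
    rw [hx]; rfl)
  exact h

/-- `pt` depends on the first `p` letters only -/
lemma OC_congr (a : ℕ) {b b' : ℕ → Bool} (n : ℕ) (h : ∀ i < n, b i = b' i) :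
    O b n = O b' n ∧ C a b n = C a b' n := by
  induction n with
  | zero => exact ⟨rfl, rfl⟩
  | succ n ih =>
    obtain ⟨h1, h2⟩ := ih fun i hi => h i (by omega)
    rw [O_succ, C_succ, h1, h2, h n (Nat.lt_succ_self n), O_succ, C_succ]
    exact ⟨rfl, rfl⟩

lemma pt_congr (a : ℕ) {b b' : ℕ → Bool} {p : ℕ} (h : ∀ i < p, b i = b' i) : pt a p b = pt a p b' := by
  obtain ⟨h1, h2⟩ := OC_congr a p h
  unfold pt
  rw [h1, h2]

/-- periodic extension of a word -/
def ext {p : ℕ} (hp : 1 ≤ p) (w : Fin p → Bool) (i : ℕ) : Bool := w ⟨i % p, Nat.mod_lt _ hp⟩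

lemma ext_periodic {p : ℕ} (hp : 1 ≤ p) (w : Fin p → Bool) (i : ℕ) : ext hp w (i + p) = ext hp w i := by
  unfold ext
  congr 1
  simp

lemma ext_lt {p : ℕ} (hp : 1 ≤ p) (w : Fin p → Bool) (i : Fin p) : ext hp w i = w i := by
  unfold ext
  congr 1
  ext
  simp [Nat.mod_eq_of_lt i.2]

lemma pt_injective {a : ℕ} (ha : Odd a) {p : ℕ} (hp : 1 ≤ p) :
    Function.Injective (fun w : Fin p → Bool => pt a p (ext hp w)) := by
  intro w w' h
  have h' : pt a p (ext hp w) = pt a p (ext hp w') := h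
  funext i
  have h1 := par_iter_pt ha hp (ext_periodic hp w) i
  have h2 := par_iter_pt ha hp (ext_periodic hp w') i
  rw [← ext_lt hp w i, ← ext_lt hp w' i, ← h1, ← h2, h']

/-- the finite set of the periodic points -/
noncomputable def per (a : ℕ) {p : ℕ} (hp : 1 ≤ p) : Finset ℚ := by
  classical
  exact Finset.univ.image fun w : Fin p → Bool => pt a p (ext hp w)

lemma mem_per {a : ℕ} (ha : Odd a) {p : ℕ} (hp : 1 ≤ p) {x : ℚ} : x ∈ per a hp ↔ IsPer a p x := by
  classical
  unfold per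
  rw [mem_image]
  constructor
  · rintro ⟨w, -, rfl⟩
    exact isPer_pt ha hp (ext_periodic hp w)
  · rintro ⟨-, hx⟩
    refine ⟨fun i => par ((T a)^[i] x), mem_univ _, ?_⟩
    conv_rhs => rw [eq_pt ha hp hx]
    refine pt_congr a fun i hi => ?_
    exact ext_lt hp _ ⟨i, hi⟩

lemma card_per {a : ℕ} (ha : Odd a) {p : ℕ} (hp : 1 ≤ p) : (per a hp).card = 2 ^ p := by
  classical
  unfold per
  rw [card_image_of_injective _ (pt_injective ha hp)]
  simp

end Pool.Agent.U339.SA
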