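import Pool.Agent.U339.SA.Small
import Pool.Agent.H510R2.Div

set_option autoImplicit false

/-!
The number of the periodic points whose denominator has a small part prime to `S`, uniformly in the map.
-/

namespace Pool.Agent.U339.SA

open Finset Pool.Agent.U339.SI

/-- the denominator divides `2 ^ p - a ^ o` -/
lemma den_pt_dvd (a p : ℕ) (b : ℕ → Bool) :
    (pt a p b).den ∣ ((2 : ℤ) ^ p - (a ^ O b p : ℕ)).natAbs := by
  have h := Rat.den_dvd ((C a b p : ℕ) : ℤ) ((2 : ℤ) ^ p - a ^ O b p)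
  rw [Rat.divInt_eq_div] at h
  push_cast
  exact Int.natCast_dvd.1 h

lemma freeDen_eq (S : Finset ℕ) (x : ℚ) : freeDen S x = Pool.Agent.U339.SA.freeDen S x := rfl

lemma den_eq (S : Finset ℕ) (x : ℚ) :
    x.den = (∏ q ∈ x.den.primeFactors ∩ S, q ^ x.den.factorization q) * freeDen S x := by
  classical
  unfold freeDen
  rw [Finset.prod_inter_mul_prod_sdiff]
  have h := Nat.prod_factorization_pow_eq_self x.den_nz
  conv_lhs => rw [← h]
  rfl

lemma freeDen_pos (S : Finset ℕ) (x : ℚ) : 1 ≤ freeDen S x := by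
  unfold freeDen
  exact Nat.one_le_iff_ne_zero.2 (Finset.prod_ne_zero_iff.2 fun q hq => by
    rw [mem_sdiff] at hq
    exact pow_ne_zero _ (Nat.prime_of_mem_primeFactors hq.1).ne_zero)

lemma freeDen_anti {S S' : Finset ℕ} (h : S ⊆ S') (x : ℚ) : freeDen S' x ≤ freeDen S x := by
  unfold freeDen
  refine Finset.prod_le_prod_of_subset_of_one_le' (Finset.sdiff_subset_sdiff (Finset.Subset.refl _) h)
    fun q hq _ => ?_
  rw [mem_sdiff] at hq
  exact Nat.one_le_pow _ _ (Nat.prime_of_mem_primeFactors hq.1).pos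

/-- the odd primes in `S` -/
def pr (S : Finset ℕ) : Finset ℕ := (S.filter Nat.Prime).filter fun q => q ≠ 2

lemma pr_prime (S : Finset ℕ) : ∀ q ∈ pr S, q.Prime := fun q hq => by
  unfold pr at hq; rw [mem_filter, mem_filter] at hq; exact hq.1.2

lemma two_not_mem_pr (S : Finset ℕ) : 2 ∉ pr S := by
  unfold pr; rw [mem_filter]; tauto

lemma mem_pr {S : Finset ℕ} {q : ℕ} (hq : q.Prime) (hS : q ∈ S) (h2 : q ≠ 2) : q ∈ pr S := by
  unfold pr; rw [mem_filter, mem_filter]; exact ⟨⟨hS, hq⟩, h2⟩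

lemma good_of {S : Finset ℕ} {a : ℕ} (ha : Odd a) (h3 : 3 ≤ a) (hc : ∀ q : ℕ, q.Prime → q ∣ a → q ∈ S) :
    Good (pr S) a := by
  refine ⟨ha, h3, fun q hq hqa => mem_pr hq (hc q hq hqa) ?_⟩
  rintro rfl
  exact (Nat.not_even_iff_odd.2 ha) (even_iff_two_dvd.2 hqa)

lemma den_le_spart (S : Finset ℕ) {a : ℕ} (ha : Odd a) {p : ℕ} (hp : 1 ≤ p) (b : ℕ → Bool) :
    (pt a p b).den ≤ sp (pr S) p (a ^ O b p) * freeDen S (pt a p b) := by
  classical
  set x := pt a p b with hx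
  set m := ((2 : ℤ) ^ p - (a ^ O b p : ℕ)).natAbs with hm
  have hm0 : m ≠ 0 := Int.natAbs_ne_zero.2 (ne_zero hp (ha.pow))
  have hd : x.den ∣ m := den_pt_dvd a p b
  conv_lhs => rw [den_eq S x]
  apply Nat.mul_le_mul_right
  have hsub : x.den.primeFactors ∩ S ⊆ pr S := by
    intro q hq
    rw [mem_inter] at hq
    have hqp := Nat.prime_of_mem_primeFactors hq.1
    have hqd := Nat.dvd_of_mem_primeFactors hq.1
    refine mem_pr hqp hq.2 ?_
    rintro rfl
    have h1 := odd_den_pt ha hp b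
    rw [← hx] at h1
    exact (Nat.not_even_iff_odd.2 h1) (even_iff_two_dvd.2 hqd)
  calc ∏ q ∈ x.den.primeFactors ∩ S, q ^ x.den.factorization q
      ≤ ∏ q ∈ x.den.primeFactors ∩ S, q ^ m.factorization q := by
        refine Finset.prod_le_prod' fun q hq => ?_
        have hqp := Nat.prime_of_mem_primeFactors (mem_inter.1 hq).1
        exact Nat.pow_le_pow_right hqp.pos ((Nat.factorization_le_iff_dvd x.den_nz hm0).2 hd q)
    _ ≤ ∏ q ∈ pr S, q ^ m.factorization q := by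
        refine Finset.prod_le_prod_of_subset_of_one_le' hsub fun q hq _ => ?_
        exact Nat.one_le_pow _ _ (pr_prime S q hq).pos

lemma M_le {a : ℕ} (ha3 : 3 ≤ a) {p o : ℕ} (ho : o ≤ p) :
    ((2 : ℤ) ^ p - (a ^ o : ℕ)).natAbs ≤ a ^ p := by
  have haz : (3 : ℤ) ≤ a := by exact_mod_cast ha3
  have h1 : (2 : ℤ) ^ p ≤ a ^ p := pow_le_pow_left₀ (by norm_num) (by linarith) p
  have h2 : (a : ℤ) ^ o ≤ a ^ p := pow_le_pow_right₀ (by linarith) ho
  have h3 : (0 : ℤ) < 2 ^ p := by positivity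
  have h4 : (0 : ℤ) < (a : ℤ) ^ o := by positivity
  have h5 : (((2 : ℤ) ^ p - (a ^ o : ℕ)).natAbs : ℤ) ≤ a ^ p := by
    rw [Int.natCast_natAbs, abs_le]
    push_cast
    constructor <;> linarith
  exact_mod_cast h5

lemma poly_le {ε : ℝ} (hε : 0 < ε) {a : ℕ} (ha3 : 3 ≤ a) (p : ℕ) :
    (p : ℝ) ^ 3 ≤ 6 * (1 / ε) ^ 3 * (a : ℝ) ^ (ε * p) := by
  have har : (3 : ℝ) ≤ a := by exact_mod_cast ha3
  have h := Real.pow_div_factorial_le_exp (ε * p) (by positivity) 3
  rw [div_le_iff₀ (by positivity)] at h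
  have h6 : ((Nat.factorial 3 : ℕ) : ℝ) = 6 := by norm_num [Nat.factorial]
  rw [h6] at h
  have h7 : Real.exp (ε * p) ≤ (a : ℝ) ^ (ε * p) := by
    have h8 : Real.exp 1 ≤ a := by
      have := Real.exp_one_lt_d9
      linarith
    calc Real.exp (ε * p) = (Real.exp 1) ^ (ε * p) := by
          rw [← Real.exp_mul, one_mul]
      _ ≤ (a : ℝ) ^ (ε * p) := Real.rpow_le_rpow (Real.exp_pos _).le h8 (by positivity)
  have h9 : (p : ℝ) ^ 3 = (1 / ε) ^ 3 * (ε * p) ^ 3 := by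
    rw [← mul_pow]; congr 1; field_simp
  rw [h9]
  calc (1 / ε) ^ 3 * (ε * p) ^ 3 ≤ (1 / ε) ^ 3 * (Real.exp (ε * p) * 6) :=
        mul_le_mul_of_nonneg_left h (by positivity)
    _ ≤ (1 / ε) ^ 3 * ((a : ℝ) ^ (ε * p) * 6) := by
        apply mul_le_mul_of_nonneg_left _ (by positivity)
        linarith
    _ = _ := by ring

/-- the part of the denominator composed of `S` -/
theorem den_bound (S : Finset ℕ) (ε : ℝ) (hε : 0 < ε) : ∃ K : ℝ, 1 ≤ K ∧
    ∀ a : ℕ, Good (pr S) a → ∀ (p : ℕ), 1 ≤ p → ∀ x : ℚ, IsPer a p x →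
      (x.den : ℝ) ≤ K * (a : ℝ) ^ (ε * p) * freeDen S x := by
  classical
  obtain ⟨K1, hK1, hsp⟩ := facts (pr S) (pr_prime S) (two_not_mem_pr S) ε hε
  refine ⟨K1, hK1, fun a ha p hp x hx => ?_⟩
  have hxeq := eq_pt ha.odd hp hx.2
  have h3 := den_le_spart S ha.odd hp (fun i => par ((T a)^[i] x))
  rw [← hxeq] at h3
  have h4 := (hsp a ha p (O (fun i => par ((T a)^[i] x)) p) hp (O_le _ p)).1
  have h5 : (x.den : ℝ) ≤ (sp (pr S) p (a ^ O (fun i => par ((T a)^[i] x)) p) : ℝ) *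
      (freeDen S x : ℝ) := by exact_mod_cast h3
  exact h5.trans (mul_le_mul_of_nonneg_right h4 (by positivity))

theorem count (S : Finset ℕ) (ε : ℝ) (hε : 0 < ε) : ∃ K : ℝ, 1 ≤ K ∧
    ∀ a : ℕ, Good (pr S) a → ∀ (p : ℕ) (hp : 1 ≤ p) (D : ℝ), 1 ≤ D →
      (((per a hp).filter fun x => (freeDen S x : ℝ) ≤ D).card : ℝ) ≤
        K * (a : ℝ) ^ (ε * p) * D := by
  classical
  obtain ⟨A, hA, hden⟩ := card_den (pr S) (pr_prime S) (two_not_mem_pr S) (ε / 4) (by positivity)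
  obtain ⟨K1, hK1, hb⟩ := den_bound S (ε / 4) (by positivity)
  obtain ⟨Cd, hCd, hdiv⟩ := Pool.Agent.H510R2.divisor_bound (ε / 4) (by positivity)
  set Kp : ℝ := 6 * (1 / (ε / 4)) ^ 3 with hKp
  have hKp0 : 0 < Kp := by positivity
  refine ⟨max 1 (2 * Cd * A * K1 * Kp), le_max_left _ _, ?_⟩
  intro a ha p hp D hD
  have har : (3 : ℝ) ≤ a := by exact_mod_cast ha.three
  have hp1 : (1 : ℝ) ≤ p := by exact_mod_cast hp
  set E : ℝ := (a : ℝ) ^ (ε / 4 * p) with hE
  have hE0 : 0 < E := by positivity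
  have hpoly : (p : ℝ) ^ 3 ≤ Kp * E := poly_le (by positivity) ha.three p
  set M : ℝ := K1 * E * D with hM
  have hM0 : 0 ≤ M := by positivity
  set 𝒟 : Finset ℕ := ((Finset.range (p + 1)).biUnion fun o =>
    ((2 : ℤ) ^ p - (a ^ o : ℕ)).natAbs.divisors).filter fun d => (d : ℝ) ≤ M with h𝒟
  set F := (per a hp).filter fun x => (freeDen S x : ℝ) ≤ D with hF
  have hmaps : ∀ x ∈ F, x.den ∈ 𝒟 := by
    intro x hx
    rw [hF, mem_filter] at hx
    have hper := (mem_per ha.odd hp).1 hx.1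
    have hxeq := eq_pt ha.odd hp hper.2
    set b : ℕ → Bool := fun i => par ((T a)^[i] x) with hbdef
    have h1 : x.den ∣ ((2 : ℤ) ^ p - (a ^ O b p : ℕ)).natAbs := by
      conv_lhs => rw [hxeq]
      exact den_pt_dvd a p b
    have h2 : (x.den : ℝ) ≤ M := by
      refine (hb a ha p hp x hper).trans ?_
      rw [hM]
      exact mul_le_mul_of_nonneg_left hx.2 (by positivity)
    rw [h𝒟, mem_filter, mem_biUnion]
    refine ⟨⟨O b p, ?_, ?_⟩, h2⟩
    · rw [mem_range]; have := O_le b p; omega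
    · rw [Nat.mem_divisors]
      exact ⟨h1, Int.natAbs_ne_zero.2 (ne_zero hp ha.odd.pow)⟩
  have hcard𝒟 : (𝒟.card : ℝ) ≤ (p + 1) * (Cd * E) := by
    have h1 : 𝒟.card ≤ ∑ o ∈ Finset.range (p + 1), ((2 : ℤ) ^ p - (a ^ o : ℕ)).natAbs.divisors.card := by
      rw [h𝒟]
      exact (card_filter_le _ _).trans card_biUnion_le
    have h2 : ∀ o ∈ Finset.range (p + 1),
        ((((2 : ℤ) ^ p - (a ^ o : ℕ)).natAbs.divisors.card : ℕ) : ℝ) ≤ Cd * E := by
      intro o ho
      rw [mem_range] at ho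
      have h3 := hdiv ((2 : ℤ) ^ p - (a ^ o : ℕ)).natAbs (Int.natAbs_pos.2 (ne_zero hp ha.odd.pow))
      refine h3.trans (mul_le_mul_of_nonneg_left ?_ hCd.le)
      have h4 : ((((2 : ℤ) ^ p - (a ^ o : ℕ)).natAbs : ℕ) : ℝ) ≤ (a : ℝ) ^ p := by
        exact_mod_cast M_le ha.three (p := p) (o := o) (by omega)
      refine (Real.rpow_le_rpow (by positivity) h4 (by positivity)).trans ?_
      rw [← Real.rpow_natCast, ← Real.rpow_mul (by linarith), hE]
      apply le_of_eq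
      congr 1; ring
    calc (𝒟.card : ℝ) ≤ ∑ o ∈ Finset.range (p + 1),
          ((((2 : ℤ) ^ p - (a ^ o : ℕ)).natAbs.divisors.card : ℕ) : ℝ) := by exact_mod_cast h1
      _ ≤ ∑ _o ∈ Finset.range (p + 1), Cd * E := Finset.sum_le_sum h2
      _ = (p + 1) * (Cd * E) := by
          rw [Finset.sum_const, card_range, nsmul_eq_mul]; push_cast; ring
  have hfib : (F.card : ℝ) ≤ ∑ d ∈ 𝒟, (((per a hp).filter fun x => x.den = d).card : ℝ) := by
    have h1 : F.card = ∑ d ∈ 𝒟, (F.filter fun x => x.den = d).card :=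
      Finset.card_eq_sum_card_fiberwise hmaps
    rw [h1]
    push_cast
    refine Finset.sum_le_sum fun d _ => ?_
    have h2 : (F.filter fun x => x.den = d).card ≤ ((per a hp).filter fun x => x.den = d).card := by
      apply card_le_card
      intro x hx
      rw [mem_filter, hF, mem_filter] at hx
      rw [mem_filter]
      exact ⟨hx.1.1, hx.2⟩
    exact_mod_cast h2
  have hterm : ∀ d ∈ 𝒟, (((per a hp).filter fun x => x.den = d).card : ℝ) ≤
      A * (p : ℝ) ^ 2 * E * M := by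
    intro d hd
    rw [h𝒟, mem_filter, mem_biUnion] at hd
    obtain ⟨⟨o, -, ho⟩, hdM⟩ := hd
    have hd1 : 1 ≤ d := Nat.pos_of_mem_divisors ho
    exact (hden a ha p hp d hd1).trans (mul_le_mul_of_nonneg_left hdM (by positivity))
  have hE4 : E * E * E * E = (a : ℝ) ^ (ε * p) := by
    rw [hE, ← Real.rpow_add (by linarith), ← Real.rpow_add (by linarith), ← Real.rpow_add (by linarith)]
    congr 1; ring
  calc (F.card : ℝ) ≤ ∑ d ∈ 𝒟, (((per a hp).filter fun x => x.den = d).card : ℝ) := hfib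
    _ ≤ ∑ _d ∈ 𝒟, A * (p : ℝ) ^ 2 * E * M := Finset.sum_le_sum hterm
    _ = 𝒟.card * (A * (p : ℝ) ^ 2 * E * M) := by rw [Finset.sum_const, nsmul_eq_mul]
    _ ≤ ((p + 1) * (Cd * E)) * (A * (p : ℝ) ^ 2 * E * M) :=
        mul_le_mul_of_nonneg_right hcard𝒟 (by positivity)
    _ ≤ ((2 * p) * (Cd * E)) * (A * (p : ℝ) ^ 2 * E * M) := by
        apply mul_le_mul_of_nonneg_right _ (by positivity)
        apply mul_le_mul_of_nonneg_right _ (by positivity)
        linarith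
    _ = 2 * Cd * A * K1 * (E * E * E) * D * (p : ℝ) ^ 3 := by
        rw [hM]; ring
    _ ≤ 2 * Cd * A * K1 * (E * E * E) * D * (Kp * E) :=
        mul_le_mul_of_nonneg_left hpoly (by positivity)
    _ = (2 * Cd * A * K1 * Kp) * (a : ℝ) ^ (ε * p) * D := by rw [← hE4]; ring
    _ ≤ max 1 (2 * Cd * A * K1 * Kp) * (a : ℝ) ^ (ε * p) * D := by
        apply mul_le_mul_of_nonneg_right _ (by linarith)
        apply mul_le_mul_of_nonneg_right (le_max_right _ _) (by positivity)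

/-- typical denominators -/
theorem typical (S : Finset ℕ) {a : ℕ} (ha : Odd a) (ha3 : 3 ≤ a) (ε : ℝ) (hε : 0 < ε) :
    ∃ K : ℝ, 1 ≤ K ∧ ∀ (p : ℕ) (hp : 1 ≤ p),
      (((per a hp).filter fun x => (freeDen S x : ℝ) < (2 : ℝ) ^ ((1 - ε) * p)).card : ℝ) ≤
        K * (2 : ℝ) ^ ((1 - ε / 2) * p) := by
  classical
  have hl2 : 0 < Real.log 2 := Real.log_pos (by norm_num)
  have har : (3 : ℝ) ≤ a := by exact_mod_cast ha3
  have hla : 0 < Real.log a := Real.log_pos (by linarith)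
  set S' := S ∪ a.primeFactors with hS'
  have hgood : Good (pr S') a := good_of ha ha3 fun q hq hqa => by
    rw [hS', mem_union]
    exact Or.inr (Nat.mem_primeFactors.2 ⟨hq, hqa, by omega⟩)
  set ε1 : ℝ := ε / 2 * Real.log 2 / Real.log a with hε1
  obtain ⟨K, hK, hc⟩ := count S' ε1 (by positivity)
  refine ⟨K, hK, fun p hp => ?_⟩
  rcases le_or_gt ((2 : ℝ) ^ ((1 - ε) * p)) 1 with h1 | h1
  · have hemp : ((per a hp).filter fun x => (freeDen S x : ℝ) < (2 : ℝ) ^ ((1 - ε) * p)) = ∅ := by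
      rw [Finset.filter_eq_empty_iff]
      intro x _ h
      have : (1 : ℝ) ≤ freeDen S x := by exact_mod_cast freeDen_pos S x
      linarith
    rw [hemp, card_empty]
    push_cast
    positivity
  · have h2 := hc a hgood p hp _ h1.le
    have h3 : (((per a hp).filter fun x => (freeDen S x : ℝ) < (2 : ℝ) ^ ((1 - ε) * p)).card : ℝ) ≤
        (((per a hp).filter fun x => (freeDen S' x : ℝ) ≤ (2 : ℝ) ^ ((1 - ε) * p)).card : ℝ) := by
      have h4 : ((per a hp).filter fun x => (freeDen S x : ℝ) < (2 : ℝ) ^ ((1 - ε) * p)).card ≤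
          ((per a hp).filter fun x => (freeDen S' x : ℝ) ≤ (2 : ℝ) ^ ((1 - ε) * p)).card := by
        apply card_le_card
        intro x hx
        rw [mem_filter] at hx ⊢
        refine ⟨hx.1, le_trans ?_ hx.2.le⟩
        exact_mod_cast freeDen_anti (S := S) (S' := S') (by rw [hS']; exact subset_union_left) x
      exact_mod_cast h4
    refine h3.trans (h2.trans (le_of_eq ?_))
    have h5 : (a : ℝ) ^ (ε1 * p) = (2 : ℝ) ^ (ε / 2 * p) := by
      rw [Real.rpow_def_of_pos (by linarith), Real.rpow_def_of_pos (by norm_num), hε1]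
      congr 1
      field_simp
    rw [h5, mul_assoc, ← Real.rpow_add (by norm_num)]
    congr 2
    ring

end Pool.Agent.U339.SA
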