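import Pool.Agent.U339.SA.Count

set_option autoImplicit false

/-!
The maps `ax+b` on the integers.
-/

namespace Pool.Agent.U339.SA

open Finset

lemma T_div {a : ℕ} (ha : Odd a) {m k : ℤ} (hk : Odd k) :
    T a ((m : ℚ) / k) = ((Tab a k m : ℤ) : ℚ) / k := by
  have hk0 : (k : ℚ) ≠ 0 := by exact_mod_cast odd_ne hk
  unfold T Tab
  by_cases h : Even m
  · rw [if_pos ((even_num_iff hk).2 h), if_pos h]
    obtain ⟨j, rfl⟩ := h
    have : (j + j) / 2 = j := by omega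
    rw [this]
    push_cast
    field_simp
    ring
  · rw [if_neg (fun h' => h ((even_num_iff hk).1 h')), if_neg h]
    have h1 : Odd m := Int.not_even_iff_odd.1 h
    have ha' : Odd ((a : ℕ) : ℤ) := by exact_mod_cast ha
    have h2 : Even ((a : ℤ) * m + k) := (Int.odd_mul.2 ⟨ha', h1⟩).add_odd hk
    obtain ⟨j, hj⟩ := h2
    have h3 : ((a : ℤ) * m + k) / 2 = j := by rw [hj]; omega
    rw [h3]
    have h4 : ((a : ℚ) * (m : ℚ) + k) = j + j := by exact_mod_cast hj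
    field_simp
    linarith

lemma T_iter_div {a : ℕ} (ha : Odd a) {m k : ℤ} (hk : Odd k) (i : ℕ) :
    (T a)^[i] ((m : ℚ) / k) = (((Tab a k)^[i] m : ℤ) : ℚ) / k := by
  induction i with
  | zero => rfl
  | succ i ih => rw [Function.iterate_succ_apply', ih, T_div ha hk, Function.iterate_succ_apply']

lemma den_div {m : ℤ} {k : ℕ} (hk : 0 < k) (h : IsCoprime m (k : ℤ)) : ((m : ℚ) / (k : ℤ)).den = k := by
  have h1 := Rat.den_div_eq_of_coprime (a := m) (b := (k : ℤ)) (by exact_mod_cast hk)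
    (Int.isCoprime_iff_nat_coprime.1 h)
  exact_mod_cast h1

lemma num_div {m : ℤ} {k : ℕ} (hk : 0 < k) (h : IsCoprime m (k : ℤ)) : ((m : ℚ) / (k : ℤ)).num = m :=
  Rat.num_div_eq_of_coprime (a := m) (b := (k : ℤ)) (by exact_mod_cast hk)
    (Int.isCoprime_iff_nat_coprime.1 h)

lemma freeDen_eq_one {S : Finset ℕ} {x : ℚ} (h : ∀ q : ℕ, q.Prime → q ∣ x.den → q ∈ S) :
    freeDen S x = 1 := by
  have : x.den.primeFactors \ S = ∅ := by
    rw [Finset.sdiff_eq_empty_iff_subset]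
    intro q hq
    exact h q (Nat.prime_of_mem_primeFactors hq) (Nat.dvd_of_mem_primeFactors hq)
  unfold freeDen
  rw [this, Finset.prod_empty]

/-- the primitive periodic points of all maps `ax+b`, `b` composed of the primes in `S` -/
theorem maps (S : Finset ℕ) (ε : ℝ) (hε : 0 < ε) : ∃ K : ℝ, 1 ≤ K ∧
    ∀ a : ℕ, Good (pr S) a → ∀ p : ℕ, 1 ≤ p →
    {t : ℤ × ℕ | (∀ q : ℕ, q.Prime → q ∣ t.2 → q ∈ S) ∧ Odd t.2 ∧ IsCoprime t.1 (t.2 : ℤ) ∧
      (Tab a t.2)^[p] t.1 = t.1}.Finite ∧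
    ({t : ℤ × ℕ | (∀ q : ℕ, q.Prime → q ∣ t.2 → q ∈ S) ∧ Odd t.2 ∧ IsCoprime t.1 (t.2 : ℤ) ∧
      (Tab a t.2)^[p] t.1 = t.1}.ncard : ℝ) ≤ K * (a : ℝ) ^ (ε * p) := by
  classical
  obtain ⟨K0, hK0, hc⟩ := count S ε hε
  refine ⟨K0, hK0, fun a ha p hp => ?_⟩
  set A : Set (ℤ × ℕ) := {t : ℤ × ℕ | (∀ q : ℕ, q.Prime → q ∣ t.2 → q ∈ S) ∧ Odd t.2 ∧
    IsCoprime t.1 (t.2 : ℤ) ∧ (Tab a t.2)^[p] t.1 = t.1} with hA
  set F := (per a hp).filter fun x => (freeDen S x : ℝ) ≤ 1 with hF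
  have hpos : ∀ t ∈ A, 0 < t.2 := by
    intro t ht
    exact Nat.pos_of_ne_zero fun h => by
      have := ht.2.1
      rw [h] at this
      exact absurd this (by decide)
  have hmaps : Set.MapsTo (fun t : ℤ × ℕ => ((t.1 : ℚ) / ((t.2 : ℤ) : ℚ))) A (F : Set ℚ) := by
    intro t ht
    have h0 := hpos t ht
    obtain ⟨h1, h2, h3, h4⟩ := ht
    have hodd : Odd ((t.2 : ℕ) : ℤ) := by exact_mod_cast h2
    have hden := den_div h0 h3
    rw [Finset.mem_coe, hF, mem_filter, mem_per ha.odd]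
    refine ⟨⟨?_, ?_⟩, ?_⟩
    · dsimp only; rw [hden]; exact h2
    · dsimp only; rw [T_iter_div ha.odd hodd, h4]
    · dsimp only
      rw [freeDen_eq_one (by rw [hden]; exact h1)]
      norm_num
  have hinj : Set.InjOn (fun t : ℤ × ℕ => ((t.1 : ℚ) / ((t.2 : ℤ) : ℚ))) A := by
    intro t ht u hu h
    have h' : ((t.1 : ℚ) / ((t.2 : ℤ) : ℚ)) = ((u.1 : ℚ) / ((u.2 : ℤ) : ℚ)) := h
    have e1 := den_div (hpos t ht) ht.2.2.1
    have e2 := den_div (hpos u hu) hu.2.2.1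
    have e3 := num_div (hpos t ht) ht.2.2.1
    have e4 := num_div (hpos u hu) hu.2.2.1
    rw [h'] at e1 e3
    exact Prod.ext (e3.symm.trans e4) (e1.symm.trans e2)
  have hfin : A.Finite := Set.Finite.of_injOn hmaps hinj F.finite_toSet
  refine ⟨hfin, ?_⟩
  have h1 : A.ncard ≤ F.card := by
    rw [← Set.ncard_coe_finset F]
    exact Set.ncard_le_ncard_of_injOn _ hmaps hinj F.finite_toSet
  have h2 := hc a ha p hp 1 le_rfl
  rw [mul_one] at h2
  calc (A.ncard : ℝ) ≤ (F.card : ℝ) := by exact_mod_cast h1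
    _ ≤ _ := h2

theorem long_cycles (S : Finset ℕ) (A : ℝ) : ∃ b0 : ℕ, ∀ a : ℕ, Good (pr S) a → ∀ b : ℕ, b0 ≤ b →
    (∀ q : ℕ, q.Prime → q ∣ b → q ∈ S) → Odd b → ∀ (n : ℤ) (p : ℕ), IsCoprime n (b : ℤ) → 1 ≤ p →
      (Tab a b)^[p] n = n → A * Real.log b ≤ p * Real.log a := by
  set B : ℝ := max A 1 with hB
  have hB1 : 1 ≤ B := le_max_right _ _
  have hBA : A ≤ B := le_max_left _ _
  obtain ⟨K, hK, hden⟩ := den_bound S (1 / (2 * B)) (by positivity)
  obtain ⟨b0, hb0⟩ := exists_nat_ge (max 1 (Real.exp (2 * Real.log K)))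
  refine ⟨b0, fun a ha b hb hS hodd n p hcop hp hper => ?_⟩
  have har : (3 : ℝ) ≤ a := by exact_mod_cast ha.three
  have hbr : max 1 (Real.exp (2 * Real.log K)) ≤ (b : ℝ) := hb0.trans (by exact_mod_cast hb)
  have hb1 : (1 : ℝ) ≤ b := (le_max_left _ _).trans hbr
  have hbpos : 0 < b := by
    have : (0 : ℝ) < b := by linarith
    exact_mod_cast this
  have hlogb : 2 * Real.log K ≤ Real.log b := by
    have := (le_max_right 1 (Real.exp (2 * Real.log K))).trans hbr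
    rwa [← Real.le_log_iff_exp_le (by linarith)] at this
  have hlogb0 : 0 ≤ Real.log b := Real.log_nonneg hb1
  have hodd' : Odd ((b : ℕ) : ℤ) := by exact_mod_cast hodd
  set x : ℚ := (n : ℚ) / ((b : ℤ) : ℚ) with hx
  have hxden : x.den = b := den_div hbpos hcop
  have hxper : IsPer a p x := by
    refine ⟨by rw [hxden]; exact hodd, ?_⟩
    rw [hx, T_iter_div ha.odd hodd', hper]
  have h1 := hden a ha p hp x hxper
  rw [freeDen_eq_one (by rw [hxden]; exact hS), hxden, Nat.cast_one, mul_one] at h1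
  have h2 := Real.log_le_log (by linarith) h1
  rw [Real.log_mul (by positivity) (by positivity), Real.log_rpow (by linarith)] at h2
  have h3 : Real.log b / 2 ≤ (p * Real.log a) / (2 * B) := by
    have : 1 / (2 * B) * p * Real.log a = (p * Real.log a) / (2 * B) := by ring
    rw [this] at h2
    linarith
  rw [div_le_div_iff₀ (by norm_num) (by positivity)] at h3
  have h5 : B * Real.log b ≤ p * Real.log a := by nlinarith
  exact (mul_le_mul_of_nonneg_right hBA hlogb0).trans h5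

end Pool.Agent.U339.SA
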