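import Pool.Agent.U339.SI.SPart

set_option autoImplicit false

/-!
Ridout's theorem for `2 ^ p - u`, uniformly in the integers `u` composed of given odd primes.
-/

namespace Pool.Agent.U339.SA

open Finset Pool.Agent.U339.SI

/-- the part of `|2 ^ p - u|` composed of the primes in `P` -/
def sp (P : Finset ℕ) (p u : ℕ) : ℕ := ∏ q ∈ P, q ^ ((2 : ℤ) ^ p - u).natAbs.factorization q

lemma ne_zero {p u : ℕ} (hp : 1 ≤ p) (hu : Odd u) : (2 : ℤ) ^ p - u ≠ 0 := by
  have h1 : Even ((2 : ℤ) ^ p) := (Int.even_pow.2 ⟨by decide, by omega⟩)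
  have h2 : Odd ((u : ℕ) : ℤ) := by exact_mod_cast hu
  have h4 : Odd ((2 : ℤ) ^ p - u) := h1.sub_odd h2
  intro h
  rw [h] at h4
  exact absurd h4 (by decide)

/-- one choice of the targets -/
lemma rid (P : Finset ℕ) (hP : ∀ q ∈ P, q.Prime) (h2 : 2 ∉ P) (ε : ℝ) (hε : 0 < ε)
    (Q : Finset ℕ) (ξ0 : ℤ) (hξ0 : ξ0 = 0 ∨ ξ0 = 1 ∨ ξ0 = 2) :
    ∃ K : ℝ, 0 ≤ K ∧ ∀ p u : ℕ, 1 ≤ p → Odd u → (∀ q : ℕ, q.Prime → q ∣ u → q ∈ P) →
      P.filter (fun q => q ∣ u) = Q →
      - Real.log (|(((2 : ℤ) ^ (p + 1) - ξ0 * ((2 : ℤ) ^ (p + 1) - u) : ℤ) : ℝ)| /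
          Pool.Agent.W180.RR.HH (2 ^ (p + 1)) ((2 : ℤ) ^ (p + 1) - u)) +
        (((p : ℝ) + 1) * Real.log 2 + Real.log u + Real.log (sp P p u)) ≤
      (2 + ε) * Real.log (Pool.Agent.W180.RR.HH (2 ^ (p + 1)) ((2 : ℤ) ^ (p + 1) - u)) + K := by
  classical
  set P' : Finset ℕ := insert 2 P with hP'
  have hPr : ∀ q ∈ P', q.Prime := by
    intro q hq
    rw [hP', mem_insert] at hq
    rcases hq with rfl | hq
    · norm_num
    · exact hP q hq
  set fs : {q // q ∈ P'} → AbsoluteValue ℚ ℝ := fun q => pav q.1 (hPr q.1 q.2) with hfs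
  set g : Polynomial ℤ := Polynomial.X * (Polynomial.X - Polynomial.C 1) *
    (Polynomial.X - Polynomial.C 2) with hg
  have hmon : g.Monic := by
    rw [hg]
    exact (Polynomial.monic_X.mul (Polynomial.monic_X_sub_C 1)).mul (Polynomial.monic_X_sub_C 2)
  have hdeg : 0 < g.natDegree := by
    rw [hg, Polynomial.Monic.natDegree_mul (Polynomial.monic_X.mul (Polynomial.monic_X_sub_C 1))
      (Polynomial.monic_X_sub_C 2), Polynomial.natDegree_X_sub_C]
    omega
  have hroot : ∀ z : ℚ, z = 0 ∨ z = 1 ∨ z = 2 → Polynomial.aeval z g = 0 := by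
    intro z hz
    rw [hg]
    simp only [map_mul, map_sub, Polynomial.aeval_X, Polynomial.aeval_C]
    rcases hz with rfl | rfl | rfl
    · simp
    · simp
    · norm_num
  set ξ : {q // q ∈ P'} → ℚ := fun q => if q.1 = 2 then 0 else if q.1 ∈ Q then 1 else 2 with hξ
  have hprod : ∀ n : ℤ, n ≠ 0 → 1 ≤ Rat.AbsoluteValue.real (n : ℚ) * ∏ i, fs i (n : ℚ) := by
    intro n hn
    have e1 : ∏ i, fs i (n : ℚ) = ((∏ q ∈ P', q ^ n.natAbs.factorization q : ℕ) : ℝ)⁻¹ := by
      rw [hfs, Finset.univ_eq_attach]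
      push_cast
      rw [← Finset.prod_inv_distrib, ← Finset.prod_attach P' fun q => ((q : ℝ) ^ n.natAbs.factorization q)⁻¹]
      exact Finset.prod_congr rfl fun q _ => pav_eq q.1 (hPr q.1 q.2) hn
    have e2 : Rat.AbsoluteValue.real (n : ℚ) = (n.natAbs : ℝ) := by
      rw [Rat.AbsoluteValue.real_eq_abs, Nat.cast_natAbs]
      push_cast
      rfl
    have hd := prod_part_dvd P' hPr n.natAbs
    have hpos : 0 < n.natAbs := Int.natAbs_pos.2 hn
    have hle : (∏ q ∈ P', q ^ n.natAbs.factorization q) ≤ n.natAbs := Nat.le_of_dvd hpos hd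
    have hpos2 : 0 < ∏ q ∈ P', q ^ n.natAbs.factorization q := Nat.pos_of_dvd_of_pos hd hpos
    rw [e1, e2, ← div_eq_mul_inv, le_div_iff₀ (by exact_mod_cast hpos2), one_mul]
    exact_mod_cast hle
  obtain ⟨K, hK, hR⟩ := Pool.Agent.W180.RR.ridout Rat.AbsoluteValue.real fs
    (fun i => pav_na _ _) (fun i n => pav_int _ _ n) hprod g hmon hdeg (ξ0 : ℚ) ξ
    (hroot _ (by rcases hξ0 with rfl | rfl | rfl <;> simp)) (fun i => hroot _ (by
      rw [hξ]; dsimp only; split_ifs <;> simp)) ε hε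
  refine ⟨K, hK, ?_⟩
  intro p u hp hu hup hQ
  set m : ℤ := 2 ^ p - u with hm
  have hm0 : m ≠ 0 := ne_zero hp hu
  set X : ℤ := 2 ^ (p + 1) with hX
  set Y : ℤ := 2 ^ (p + 1) - u with hY
  have hu0 : u ≠ 0 := by rintro rfl; exact absurd hu (by decide)
  have hu0' : (u : ℤ) ≠ 0 := by exact_mod_cast hu0
  have hcop : IsCoprime X Y := by
    have h1 : IsCoprime ((2 : ℤ) ^ (p + 1)) (u : ℤ) := by
      apply IsCoprime.pow_left
      exact (Nat.isCoprime_iff_coprime (m := 2) (n := u)).2 (Nat.coprime_two_left.2 hu)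
    obtain ⟨s, t, hst⟩ := h1
    refine ⟨s + t, -t, ?_⟩
    rw [hX, hY, ← hst]; ring
  have hXY1 : X - Y = u := by rw [hX, hY]; ring
  have hXY2 : X - 2 * Y = -2 * m := by rw [hX, hY, hm, pow_succ]; ring
  have hX0 : X ≠ 0 := by rw [hX]; positivity
  have h2m : -2 * m ≠ 0 := mul_ne_zero (by norm_num) hm0
  -- the forms
  have hform : ∀ i : {q // q ∈ P'}, (X : ℚ) - ξ i * (Y : ℚ) =
      (((if i.1 = 2 then X else if i.1 ∈ Q then (u : ℤ) else -2 * m) : ℤ) : ℚ) := by
    intro i
    rw [hξ]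
    dsimp only
    split_ifs
    · push_cast; ring
    · rw [← hXY1]; push_cast; ring
    · rw [← hXY2]; push_cast; ring
  have hformne : ∀ i : {q // q ∈ P'}, (X : ℚ) - ξ i * (Y : ℚ) ≠ 0 := by
    intro i
    rw [hform i]
    split_ifs
    · exact_mod_cast hX0
    · exact_mod_cast hu0'
    · exact_mod_cast h2m
  have h0ne : X - ξ0 * Y ≠ 0 := by
    rcases hξ0 with rfl | rfl | rfl
    · rw [zero_mul, sub_zero]; exact hX0
    · rw [one_mul, hXY1]; exact hu0'
    · rw [hXY2]; exact h2m
  -- primes dividing `u` do not divide `m`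
  have hcopm : ∀ q : ℕ, q.Prime → q ∣ u → ¬ q ∣ m.natAbs := by
    intro q hq hqu hqm
    have h3 : (q : ℤ) ∣ m := Int.natCast_dvd.2 hqm
    have h4 : (q : ℤ) ∣ (u : ℤ) := by exact_mod_cast hqu
    have h5 : (q : ℤ) ∣ 2 ^ p := by
      have := dvd_add h3 h4
      rwa [hm, sub_add_cancel] at this
    have h6 : (q : ℤ) ∣ 2 := (Nat.prime_iff_prime_int.1 hq).dvd_of_dvd_pow h5
    have h7 : q ∣ 2 := by exact_mod_cast h6
    have h8 : q = 2 := (Nat.prime_dvd_prime_iff_eq hq Nat.prime_two).1 h7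
    rw [h8] at hqu
    exact (Nat.not_even_iff_odd.2 hu) (even_iff_two_dvd.2 hqu)
  -- the sum over the places
  have hspos : 0 < sp P p u := Finset.prod_pos fun q hq => pow_pos (hP q hq).pos _
  have hufac : Real.log u = ∑ q ∈ P, (u.factorization q : ℝ) * Real.log q := by
    have h3 : u = ∏ q ∈ P, q ^ u.factorization q := by
      conv_lhs => rw [← Nat.prod_factorization_pow_eq_self hu0]
      rw [Finsupp.prod_of_support_subset _ (s := P) ?_ _ fun q _ => pow_zero q]
      intro q hq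
      rw [Nat.support_factorization] at hq
      exact hup q (Nat.prime_of_mem_primeFactors hq) (Nat.dvd_of_mem_primeFactors hq)
    conv_lhs => rw [h3]
    push_cast
    rw [Real.log_prod (fun q hq => by have := (hP q hq).pos; positivity)]
    exact Finset.sum_congr rfl fun q _ => Real.log_pow _ _
  have hsfac : Real.log (sp P p u) = ∑ q ∈ P, (m.natAbs.factorization q : ℝ) * Real.log q := by
    unfold sp
    push_cast
    rw [Real.log_prod (fun q hq => by have := (hP q hq).pos; positivity)]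
    exact Finset.sum_congr rfl fun q _ => Real.log_pow _ _
  have hsum : ∑ i, - Real.log (fs i ((X : ℚ) - ξ i * (Y : ℚ))) =
      ((p : ℝ) + 1) * Real.log 2 + Real.log u + Real.log (sp P p u) := by
    set F : ℕ → ℝ := fun q => if q = 2 then ((p : ℝ) + 1) * Real.log 2 else
      ((u.factorization q : ℝ) * Real.log q + (m.natAbs.factorization q : ℝ) * Real.log q) with hF
    have e1 : ∀ i : {q // q ∈ P'}, - Real.log (fs i ((X : ℚ) - ξ i * (Y : ℚ))) = F i.1 := by
      intro i
      have hiP' := i.2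
      rw [hform i, hfs, hF]
      dsimp only
      split_ifs with c1 c2
      · rw [pav_eq _ _ hX0, Real.log_inv, neg_neg, Real.log_pow, c1, hX]
        congr 1
        have : ((2 : ℤ) ^ (p + 1)).natAbs = 2 ^ (p + 1) := by
          rw [Int.natAbs_pow]; rfl
        rw [this, Nat.Prime.factorization_pow (by norm_num)]
        simp
      · rw [← hQ, mem_filter] at c2
        have hz : m.natAbs.factorization i.1 = 0 :=
          Nat.factorization_eq_zero_of_not_dvd (hcopm _ (hP _ c2.1) c2.2)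
        rw [pav_eq _ _ hu0', Real.log_inv, neg_neg, Real.log_pow, hz, Int.natAbs_natCast]
        push_cast
        ring
      · have hiP : i.1 ∈ P := (Finset.mem_insert.1 (show i.1 ∈ insert 2 P from hiP')).resolve_left c1
        have hz : u.factorization i.1 = 0 := by
          apply Nat.factorization_eq_zero_of_not_dvd
          intro hd
          apply c2
          rw [← hQ, mem_filter]
          exact ⟨hiP, hd⟩
        rw [pav_eq _ _ h2m, Real.log_inv, neg_neg, Real.log_pow, hz]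
        have hne : m.natAbs ≠ 0 := Int.natAbs_ne_zero.2 hm0
        rw [Int.natAbs_mul, Nat.factorization_mul (by norm_num) hne]
        have : (Int.natAbs (-2)).factorization i.1 = 0 := by
          have h5 : Int.natAbs (-2) = 2 := rfl
          rw [h5, Nat.Prime.factorization (by norm_num)]
          rw [Finsupp.single_apply, if_neg (fun h => c1 h.symm)]
        rw [Finsupp.add_apply, this, zero_add]
        push_cast
        ring
    rw [Finset.sum_congr rfl fun i _ => e1 i, Finset.univ_eq_attach, Finset.sum_attach P' F, hP',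
      Finset.sum_insert h2]
    have e2 : ∑ q ∈ P, F q = Real.log u + Real.log (sp P p u) := by
      rw [hufac, hsfac, ← Finset.sum_add_distrib]
      refine Finset.sum_congr rfl fun q hq => ?_
      have hq2 : q ≠ 2 := fun h => h2 (h ▸ hq)
      rw [hF]
      dsimp only
      rw [if_neg hq2]
    rw [e2, hF]
    dsimp only
    rw [if_pos rfl]
    ring
  have h4 := hR X Y hcop (by
    have : (X : ℚ) - ξ0 * (Y : ℚ) = ((X - ξ0 * Y : ℤ) : ℚ) := by push_cast; ring
    rw [this]; exact_mod_cast h0ne) hformne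
  rw [hsum, show (X : ℚ) - ξ0 * (Y : ℚ) = ((X - ξ0 * Y : ℤ) : ℚ) by push_cast; ring,
    Rat.AbsoluteValue.real_eq_abs] at h4
  have e5 : ((|((X - ξ0 * Y : ℤ) : ℚ)| : ℚ) : ℝ) = |((X - ξ0 * Y : ℤ) : ℝ)| := by
    rw [Rat.cast_abs, Rat.cast_intCast]
  rw [e5] at h4
  exact h4

/-- the larger of `2 ^ p` and `u` -/
noncomputable def NN (p u : ℕ) : ℝ := max ((2 : ℝ) ^ p) u

lemma NN_pos (p u : ℕ) : 0 < NN p u := lt_of_lt_of_le (by positivity) (le_max_left _ _)

lemma NN_ge_one (p u : ℕ) : 1 ≤ NN p u := (one_le_pow₀ (by norm_num)).trans (le_max_left _ _)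

lemma HH_le (p u : ℕ) :
    Pool.Agent.W180.RR.HH (2 ^ (p + 1)) ((2 : ℤ) ^ (p + 1) - u) ≤ max ((2 : ℝ) ^ (p + 1)) u := by
  unfold Pool.Agent.W180.RR.HH
  push_cast
  have a1 : (0 : ℝ) < 2 ^ (p + 1) := by positivity
  have a2 : (0 : ℝ) ≤ u := by positivity
  refine max_le ?_ ?_
  · rw [abs_of_pos a1]; exact le_max_left _ _
  · rw [abs_le]
    constructor
    · have := le_max_right ((2 : ℝ) ^ (p + 1)) u; linarith
    · have := le_max_left ((2 : ℝ) ^ (p + 1)) u; linarith

theorem unif (P : Finset ℕ) (hP : ∀ q ∈ P, q.Prime) (h2 : 2 ∉ P) (ε : ℝ) (hε : 0 < ε) :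
    ∃ K : ℝ, 1 ≤ K ∧ ∀ p u : ℕ, 1 ≤ p → Odd u → (∀ q : ℕ, q.Prime → q ∣ u → q ∈ P) →
      (sp P p u : ℝ) ≤ K * NN p u ^ ε ∧
      NN p u ≤ K * NN p u ^ ε * |(((2 : ℤ) ^ p - u : ℤ) : ℝ)| := by
  classical
  have hl2 : 0 < Real.log 2 := Real.log_pos (by norm_num)
  have h0 := fun Q : Finset ℕ => rid P hP h2 ε hε Q 0 (Or.inl rfl)
  have h1 := fun Q : Finset ℕ => rid P hP h2 ε hε Q 1 (Or.inr (Or.inl rfl))
  have h2' := fun Q : Finset ℕ => rid P hP h2 ε hε Q 2 (Or.inr (Or.inr rfl))
  choose K0 hK0 hR0 using h0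
  choose K1 hK1 hR1 using h1
  choose K2 hK2 hR2 using h2'
  set Kt : ℝ := ∑ Q ∈ P.powerset, (K0 Q + K1 Q + K2 Q) with hKt
  have hle : ∀ Q ∈ P.powerset, K0 Q + K1 Q + K2 Q ≤ Kt := fun Q hQ =>
    Finset.single_le_sum (f := fun Q => K0 Q + K1 Q + K2 Q)
      (fun Q _ => by have := hK0 Q; have := hK1 Q; have := hK2 Q; linarith) hQ
  have hKt0 : 0 ≤ Kt := Finset.sum_nonneg fun Q _ => by
    have := hK0 Q; have := hK1 Q; have := hK2 Q; linarith
  set L : ℝ := Kt + (3 + ε) * Real.log 2 with hL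
  have hL0 : 0 ≤ L := by rw [hL]; positivity
  refine ⟨Real.exp L, Real.one_le_exp hL0, ?_⟩
  intro p u hp hu hup
  set Q := P.filter (fun q => q ∣ u) with hQ
  have hQP : Q ∈ P.powerset := by rw [mem_powerset]; exact filter_subset _ _
  have hKQ := hle Q hQP
  have hk0 := hK0 Q
  have hk1 := hK1 Q
  have hk2 := hK2 Q
  have hu0 : u ≠ 0 := by rintro rfl; exact absurd hu (by decide)
  have hu1 : (1 : ℝ) ≤ u := by exact_mod_cast Nat.one_le_iff_ne_zero.2 hu0
  set H : ℝ := Pool.Agent.W180.RR.HH (2 ^ (p + 1)) ((2 : ℤ) ^ (p + 1) - u) with hH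
  have hH1 : 1 ≤ H := Pool.Agent.W180.RR.HH_ge_one (Or.inl (by positivity))
  have hHpos : 0 < H := by linarith
  have hHle : H ≤ max ((2 : ℝ) ^ (p + 1)) u := HH_le p u
  set N := NN p u with hN
  have hNpos : 0 < N := NN_pos p u
  have hN1 : 1 ≤ N := NN_ge_one p u
  have hN2 : (2 : ℝ) ^ p ≤ N := le_max_left _ _
  have hNu : (u : ℝ) ≤ N := le_max_right _ _
  have hH2N : H ≤ 2 * N := by
    refine hHle.trans (max_le ?_ ?_)
    · rw [pow_succ]; linarith
    · linarith
  have hlogH0 : 0 ≤ Real.log H := Real.log_nonneg hH1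
  have hlogH : Real.log H ≤ Real.log 2 + Real.log N := by
    have := Real.log_le_log hHpos hH2N
    rwa [Real.log_mul (by norm_num) hNpos.ne'] at this
  have hlogN0 : 0 ≤ Real.log N := Real.log_nonneg hN1
  have hspos : (0 : ℝ) < sp P p u := by
    have : 0 < sp P p u := Finset.prod_pos fun q hq => pow_pos (hP q hq).pos _
    exact_mod_cast this
  have hs1 : 0 ≤ Real.log (sp P p u) := by
    apply Real.log_nonneg
    have : 1 ≤ sp P p u := Finset.prod_pos fun q hq => pow_pos (hP q hq).pos _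
    exact_mod_cast this
  have hNε : N ^ ε = Real.exp (ε * Real.log N) := by
    rw [Real.rpow_def_of_pos hNpos]; congr 1; ring
  constructor
  · have hfin : Real.log (sp P p u) ≤ ε * Real.log H + Kt → (sp P p u : ℝ) ≤ Real.exp L * N ^ ε := by
      intro h
      rw [hNε, ← Real.exp_add, ← Real.log_le_iff_le_exp hspos]
      have : ε * Real.log H ≤ ε * (Real.log 2 + Real.log N) := mul_le_mul_of_nonneg_left hlogH hε.le
      rw [hL]
      linarith
    apply hfin
    rcases le_or_gt (u : ℝ) (2 ^ (p + 1)) with hcase | hcase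
    · have h4 := hR1 Q p u hp hu hup hQ.symm
      have e5 : |(((2 : ℤ) ^ (p + 1) - 1 * ((2 : ℤ) ^ (p + 1) - u) : ℤ) : ℝ)| = u := by
        push_cast
        rw [show (2 : ℝ) ^ (p + 1) - 1 * ((2 : ℝ) ^ (p + 1) - u) = u by ring, abs_of_nonneg (by linarith)]
      rw [e5, Real.log_div (by positivity) hHpos.ne', ← hH] at h4
      have h6 : Real.log H ≤ ((p : ℝ) + 1) * Real.log 2 := by
        have := Real.log_le_log hHpos (hHle.trans (max_le le_rfl hcase))
        rw [Real.log_pow] at this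
        push_cast at this
        exact this
      linarith
    · have h4 := hR0 Q p u hp hu hup hQ.symm
      have e5 : |(((2 : ℤ) ^ (p + 1) - 0 * ((2 : ℤ) ^ (p + 1) - u) : ℤ) : ℝ)| = 2 ^ (p + 1) := by
        push_cast
        rw [show (2 : ℝ) ^ (p + 1) - 0 * ((2 : ℝ) ^ (p + 1) - u) = 2 ^ (p + 1) by ring,
          abs_of_pos (by positivity)]
      rw [e5, Real.log_div (by positivity) hHpos.ne', Real.log_pow, ← hH] at h4
      have h6 : Real.log H ≤ Real.log u := Real.log_le_log hHpos (hHle.trans (max_le hcase.le le_rfl))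
      push_cast at h4
      linarith
  · set M : ℝ := |(((2 : ℤ) ^ p - u : ℤ) : ℝ)| with hM
    have hMr : M = |(2 : ℝ) ^ p - u| := by rw [hM]; push_cast; rfl
    have hM1 : 1 ≤ M := by
      have : (1 : ℤ) ≤ |(2 : ℤ) ^ p - u| := Int.one_le_abs (ne_zero hp hu)
      rw [hM]
      exact_mod_cast this
    have hexpL : Real.exp L ≥ 2 := by
      have h3 : Real.exp (Real.log 2) ≤ Real.exp L := by
        apply Real.exp_le_exp.2
        have : 0 ≤ ε * Real.log 2 := by positivity
        rw [hL]; linarith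
      rwa [Real.exp_log (by norm_num)] at h3
    have hNε1 : 1 ≤ N ^ ε := Real.one_le_rpow hN1 hε.le
    rcases le_or_gt (2 * min ((2 : ℝ) ^ p) u) N with hcase | hcase
    · have h3 : N ≤ 2 * M := by
        rw [hMr]
        rcases le_total ((2 : ℝ) ^ p) u with h | h
        · rw [min_eq_left h] at hcase
          have hNe : N = u := max_eq_right h
          rw [hNe] at hcase ⊢
          rw [abs_of_nonpos (by linarith)]; linarith
        · rw [min_eq_right h] at hcase
          have hNe : N = 2 ^ p := max_eq_left h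
          rw [hNe] at hcase ⊢
          rw [abs_of_nonneg (by linarith)]; linarith
      calc N ≤ 2 * 1 * M := by linarith
        _ ≤ Real.exp L * N ^ ε * M := by
            apply mul_le_mul_of_nonneg_right _ (by linarith)
            exact mul_le_mul hexpL hNε1 (by norm_num) (Real.exp_pos _).le
    · have h4 := hR2 Q p u hp hu hup hQ.symm
      have e5 : |(((2 : ℤ) ^ (p + 1) - 2 * ((2 : ℤ) ^ (p + 1) - u) : ℤ) : ℝ)| = 2 * M := by
        rw [hMr]
        push_cast
        rw [show (2 : ℝ) ^ (p + 1) - 2 * ((2 : ℝ) ^ (p + 1) - u) = -(2 * ((2 : ℝ) ^ p - u)) by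
          rw [pow_succ]; ring, abs_neg, abs_mul, abs_of_pos (show (0 : ℝ) < 2 by norm_num)]
      rw [e5, Real.log_div (by positivity) hHpos.ne', Real.log_mul (by norm_num) (by linarith), ← hH] at h4
      have h5 : 2 * Real.log N - Real.log 2 ≤ (p : ℝ) * Real.log 2 + Real.log u := by
        have h6 : N * N ≤ 2 * ((2 : ℝ) ^ p * u) := by
          rcases le_total ((2 : ℝ) ^ p) u with h | h
          · rw [min_eq_left h] at hcase
            have hNe : N = u := max_eq_right h
            rw [hNe] at hcase ⊢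
            nlinarith
          · rw [min_eq_right h] at hcase
            have hNe : N = 2 ^ p := max_eq_left h
            rw [hNe] at hcase ⊢
            nlinarith [show (0 : ℝ) < 2 ^ p by positivity]
        have h7 := Real.log_le_log (by positivity) h6
        rw [Real.log_mul hNpos.ne' hNpos.ne', Real.log_mul (by norm_num) (by positivity),
          Real.log_mul (by positivity) (by positivity), Real.log_pow] at h7
        linarith
      have h8 : Real.log N ≤ L + ε * Real.log N + Real.log M := by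
        have h9 : (1 + ε) * Real.log H ≤ (1 + ε) * (Real.log 2 + Real.log N) :=
          mul_le_mul_of_nonneg_left hlogH (by linarith)
        rw [hL]
        linarith
      rw [hNε, ← Real.exp_add]
      have h10 : Real.exp (L + ε * Real.log N) * M = Real.exp (L + ε * Real.log N + Real.log M) := by
        rw [Real.exp_add (L + ε * Real.log N), Real.exp_log (by linarith)]
      rw [h10]
      calc N = Real.exp (Real.log N) := (Real.exp_log hNpos).symm
        _ ≤ _ := Real.exp_le_exp.2 h8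

end Pool.Agent.U339.SA
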