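import Pool.Agent.U339.SA.Basic
import Pool.Agent.U339.SA.SPart

set_option autoImplicit false

/-!
Denominators are constant along cycles, and every cycle has a small element, uniformly in the map.
-/

namespace Pool.Agent.U339.SA

open Finset

lemma den_T {a : ℕ} (ha : Odd a) {x : ℚ} (hx : Odd x.den) : (T a x).den ∣ x.den := by
  have hx0 : (x.den : ℚ) ≠ 0 := by exact_mod_cast x.den_nz
  have key : ∃ k : ℤ, T a x = (k : ℚ) / ((x.den : ℤ) : ℚ) := by
    unfold T
    by_cases h : Even x.num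
    · rw [if_pos h]
      obtain ⟨k, hk⟩ := h
      refine ⟨k, ?_⟩
      conv_lhs => rw [← Rat.num_div_den x, hk]
      push_cast
      field_simp
      ring
    · rw [if_neg h]
      have h1 : Odd x.num := Int.not_even_iff_odd.1 h
      have h2 : Odd ((x.den : ℕ) : ℤ) := by exact_mod_cast hx
      have ha' : Odd ((a : ℕ) : ℤ) := by exact_mod_cast ha
      have h3 : Even ((a : ℤ) * x.num + (x.den : ℤ)) :=
        (Int.odd_mul.2 ⟨ha', h1⟩).add_odd h2
      obtain ⟨k, hk⟩ := h3
      refine ⟨k, ?_⟩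
      have hk' : ((a : ℚ) * (x.num : ℚ) + (x.den : ℚ)) = (k : ℚ) + k := by exact_mod_cast hk
      conv_lhs => rw [← Rat.num_div_den x]
      push_cast
      field_simp
      linarith
  obtain ⟨k, hk⟩ := key
  have h := Rat.den_dvd k (x.den : ℤ)
  rw [Rat.divInt_eq_div, ← hk] at h
  exact_mod_cast h

lemma den_iter {a : ℕ} (ha : Odd a) {x : ℚ} (hx : Odd x.den) (i : ℕ) :
    Odd ((T a)^[i] x).den ∧ ((T a)^[i] x).den ∣ x.den := by
  induction i with
  | zero => exact ⟨hx, dvd_refl _⟩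
  | succ i ih =>
    rw [Function.iterate_succ_apply']
    have h := den_T ha ih.1
    exact ⟨by
      obtain ⟨k, hk⟩ := h
      have := ih.1
      rw [hk] at this
      exact (Nat.odd_mul.1 this).1, h.trans ih.2⟩

lemma den_iter_eq {a : ℕ} (ha : Odd a) {p : ℕ} {x : ℚ} (hx : IsPer a p x) {i : ℕ} (hi : i ≤ p) :
    ((T a)^[i] x).den = x.den := by
  obtain ⟨h1, h2⟩ := den_iter ha hx.1 i
  refine Nat.dvd_antisymm h2 ?_
  have h3 := (den_iter ha h1 (p - i)).2
  rw [← Function.iterate_add_apply, Nat.sub_add_cancel hi, hx.2] at h3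
  exact h3

lemma eq_iter {a p : ℕ} {x : ℚ} (hx : IsPer a p x) {i : ℕ} (hi : i ≤ p) :
    x = (T a)^[p - i] ((T a)^[i] x) := by
  rw [← Function.iterate_add_apply, Nat.sub_add_cancel hi, hx.2]

/-- the change of the logarithm in one step -/
lemma log_step {a : ℕ} (ha3 : 3 ≤ a) {B : ℝ} (hB : 1 ≤ B) (b : Bool) {y : ℚ} (hy : B < |(y : ℝ)|) :
    |Real.log |((step a b y : ℚ) : ℝ)| - Real.log |(y : ℝ)| + Real.log 2 -
      (if b then Real.log a else 0)| ≤ 1 / B := by
  have hB0 : 0 < B := by linarith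
  have hy0 : 0 < |(y : ℝ)| := by linarith
  have hyne : (y : ℝ) ≠ 0 := abs_pos.1 hy0
  have har : (3 : ℝ) ≤ a := by exact_mod_cast ha3
  have ha0 : (0 : ℝ) < a := by linarith
  unfold step
  cases b with
  | false =>
    simp only [Bool.false_eq_true, if_false]
    push_cast
    rw [abs_div, Real.log_div hy0.ne' (by norm_num)]
    rw [show |(2 : ℝ)| = 2 by norm_num]
    rw [show Real.log |(y : ℝ)| - Real.log 2 - Real.log |(y : ℝ)| + Real.log 2 - 0 = 0 by ring]
    rw [abs_zero]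
    positivity
  | true =>
    simp only [if_true]
    push_cast
    set t : ℝ := 1 / (a * (y : ℝ)) with ht
    have htabs : |t| ≤ 1 / (3 * B) := by
      rw [ht, abs_div, abs_one, abs_mul, abs_of_pos ha0]
      apply one_div_le_one_div_of_le (by positivity)
      exact mul_le_mul har hy.le hB0.le ha0.le
    have ht3 : |t| ≤ 1 / 3 := by
      refine htabs.trans ?_
      apply one_div_le_one_div_of_le (by norm_num)
      linarith
    have ht1 : 0 < 1 + t := by
      have := (abs_le.1 ht3).1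
      linarith
    have h1 : ((a : ℝ) * (y : ℝ) + 1) / 2 = (a / 2 * (y : ℝ)) * (1 + t) := by
      rw [ht]
      field_simp
    have h2 : Real.log |((a : ℝ) * (y : ℝ) + 1) / 2| = Real.log a - Real.log 2 + Real.log |(y : ℝ)| +
        Real.log (1 + t) := by
      rw [h1, abs_mul, abs_mul, abs_of_pos ht1, abs_of_pos (show (0 : ℝ) < a / 2 by positivity),
        Real.log_mul (by positivity) ht1.ne', Real.log_mul (by positivity) hy0.ne',
        Real.log_div ha0.ne' (by norm_num)]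
    rw [h2, show Real.log a - Real.log 2 + Real.log |(y : ℝ)| + Real.log (1 + t) -
      Real.log |(y : ℝ)| + Real.log 2 - Real.log a = Real.log (1 + t) by ring]
    have h3 : Real.log (1 + t) ≤ |t| := by
      have := Real.log_le_sub_one_of_pos ht1
      have := le_abs_self t
      linarith
    have h4 : -(2 * |t|) ≤ Real.log (1 + t) := by
      have h5 := Real.one_sub_inv_le_log_of_pos ht1
      have h6 : -(2 * |t|) ≤ 1 - (1 + t)⁻¹ := by
        have h7 : 1 - (1 + t)⁻¹ = t / (1 + t) := by field_simp; ring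
        rw [h7, le_div_iff₀ ht1]
        have h8 := abs_le.1 ht3
        rcases le_or_gt 0 t with h | h
        · rw [abs_of_nonneg h]; nlinarith
        · rw [abs_of_neg h]; rw [abs_of_neg h] at ht3; nlinarith
      linarith
    have h9 : 2 * |t| ≤ 1 / B := by
      have : 2 * (1 / (3 * B)) ≤ 1 / B := by
        rw [mul_one_div, div_le_div_iff₀ (by positivity) hB0]
        nlinarith
      linarith
    rw [abs_le]
    constructor
    · linarith
    · have := abs_nonneg t
      linarith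

lemma log_sum {a : ℕ} (ha3 : 3 ≤ a) {B : ℝ} (hB : 1 ≤ B) (x : ℚ) (n : ℕ)
    (h : ∀ i < n, B < |(((T a)^[i] x : ℚ) : ℝ)|) :
    |Real.log |(((T a)^[n] x : ℚ) : ℝ)| - Real.log |(x : ℝ)| + n * Real.log 2 -
      (O (fun i => par ((T a)^[i] x)) n : ℕ) * Real.log a| ≤ n / B := by
  induction n with
  | zero => simp [O]
  | succ n ih =>
    have h1 := ih fun i hi => h i (by omega)
    have h2 := log_step ha3 hB (par ((T a)^[n] x)) (h n (Nat.lt_succ_self n))
    rw [← T_eq, ← Function.iterate_succ_apply' (T a) n x] at h2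
    rw [O_succ]
    set L := Real.log |(((T a)^[n + 1] x : ℚ) : ℝ)|
    set M := Real.log |(((T a)^[n] x : ℚ) : ℝ)|
    have h3 : L - Real.log |(x : ℝ)| + ((n + 1 : ℕ) : ℝ) * Real.log 2 -
        ((O (fun i => par ((T a)^[i] x)) n + (if par ((T a)^[n] x) then 1 else 0) : ℕ) : ℝ) *
          Real.log a =
        (M - Real.log |(x : ℝ)| + n * Real.log 2 -
          (O (fun i => par ((T a)^[i] x)) n : ℕ) * Real.log a) +
        (L - M + Real.log 2 - (if par ((T a)^[n] x) then Real.log a else 0)) := by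
      push_cast
      split_ifs <;> ring
    rw [h3]
    refine (abs_add_le _ _).trans ((add_le_add h1 h2).trans ?_)
    push_cast
    rw [add_div]

lemma log_diff {x y : ℝ} (hx : 0 < x) (hy : 0 < y) :
    |x - y| ≤ |Real.log x - Real.log y| * max x y := by
  have key : ∀ u v : ℝ, 0 < v → v ≤ u → |u - v| ≤ |Real.log u - Real.log v| * max u v := by
    intro u v hv huv
    have hu : 0 < u := by linarith
    rw [max_eq_left huv, abs_of_nonneg (by linarith)]
    have h1 : 1 - v / u ≤ Real.log u - Real.log v := by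
      have h2 := Real.log_le_sub_one_of_pos (show 0 < v / u by positivity)
      rw [Real.log_div hv.ne' hu.ne'] at h2
      linarith
    have h3 : u - v = (1 - v / u) * u := by field_simp
    rw [h3]
    exact mul_le_mul_of_nonneg_right (h1.trans (le_abs_self _)) hu.le
  rcases le_total y x with h | h
  · exact key x y hy h
  · have := key y x hx h
    rwa [abs_sub_comm, abs_sub_comm (Real.log y), max_comm] at this

/-- the class of the maps -/
structure Good (P : Finset ℕ) (a : ℕ) : Prop where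
  odd : Odd a
  three : 3 ≤ a
  comp : ∀ q : ℕ, q.Prime → q ∣ a → q ∈ P

lemma NN_le {a : ℕ} (ha3 : 3 ≤ a) {p o : ℕ} (ho : o ≤ p) : NN p (a ^ o) ≤ (a : ℝ) ^ p := by
  have har : (3 : ℝ) ≤ a := by exact_mod_cast ha3
  unfold NN
  refine max_le (pow_le_pow_left₀ (by norm_num) (by linarith) _) ?_
  push_cast
  exact pow_le_pow_right₀ (by linarith) ho

/-- the two facts from Ridout's theorem -/
theorem facts (P : Finset ℕ) (hP : ∀ q ∈ P, q.Prime) (h2 : 2 ∉ P) (ε : ℝ) (hε : 0 < ε) :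
    ∃ K : ℝ, 1 ≤ K ∧ ∀ a : ℕ, Good P a → ∀ p o : ℕ, 1 ≤ p → o ≤ p →
      (sp P p (a ^ o) : ℝ) ≤ K * (a : ℝ) ^ (ε * p) ∧
      1 ≤ K * (a : ℝ) ^ (ε * p) * |(p : ℝ) * Real.log 2 - o * Real.log a| := by
  obtain ⟨K, hK, h⟩ := unif P hP h2 ε hε
  refine ⟨K, hK, fun a ha p o hp ho => ?_⟩
  have har : (3 : ℝ) ≤ a := by exact_mod_cast ha.three
  have hu : Odd (a ^ o) := ha.odd.pow
  obtain ⟨h3, h4⟩ := h p (a ^ o) hp hu fun q hq hqd => ha.comp q hq (hq.dvd_of_dvd_pow hqd)
  have hN := NN_le ha.three ho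
  have hNpos := NN_pos p (a ^ o)
  have hNε : NN p (a ^ o) ^ ε ≤ (a : ℝ) ^ (ε * p) := by
    refine (Real.rpow_le_rpow hNpos.le hN hε.le).trans ?_
    rw [← Real.rpow_natCast, ← Real.rpow_mul (by linarith)]
    apply le_of_eq
    congr 1; ring
  refine ⟨h3.trans (mul_le_mul_of_nonneg_left hNε (by linarith)), ?_⟩
  have h5 := log_diff (x := (2 : ℝ) ^ p) (y := ((a ^ o : ℕ) : ℝ)) (by positivity) (by
    have : 0 < a ^ o := Nat.pow_pos (by have := ha.three; omega)
    exact_mod_cast this)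
  have h6 : |(((2 : ℤ) ^ p - (a ^ o : ℕ) : ℤ) : ℝ)| = |(2 : ℝ) ^ p - ((a ^ o : ℕ) : ℝ)| := by
    push_cast; rfl
  rw [h6] at h4
  have h7 : Real.log ((2 : ℝ) ^ p) - Real.log ((a ^ o : ℕ) : ℝ) =
      (p : ℝ) * Real.log 2 - o * Real.log a := by
    push_cast
    rw [Real.log_pow, Real.log_pow]
  rw [h7] at h5
  set Λ := |(p : ℝ) * Real.log 2 - o * Real.log a| with hΛ
  have h8 : NN p (a ^ o) ≤ K * NN p (a ^ o) ^ ε * (Λ * NN p (a ^ o)) :=
    h4.trans (mul_le_mul_of_nonneg_left h5 (by positivity))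
  have h9 : 1 ≤ K * NN p (a ^ o) ^ ε * Λ := by
    by_contra hcon
    push Not at hcon
    have : K * NN p (a ^ o) ^ ε * (Λ * NN p (a ^ o)) < 1 * NN p (a ^ o) := by
      rw [← mul_assoc]
      exact mul_lt_mul_of_pos_right hcon hNpos
    linarith
  refine h9.trans (mul_le_mul_of_nonneg_right ?_ (abs_nonneg _))
  exact mul_le_mul_of_nonneg_left hNε (by linarith)

/-- every cycle has a small element -/
theorem exists_small (P : Finset ℕ) (hP : ∀ q ∈ P, q.Prime) (h2 : 2 ∉ P) (ε : ℝ) (hε : 0 < ε) :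
    ∃ K : ℝ, 1 ≤ K ∧ ∀ a : ℕ, Good P a → ∀ p : ℕ, 1 ≤ p → ∀ x : ℚ, (T a)^[p] x = x →
    ∃ i < p, |(((T a)^[i] x : ℚ) : ℝ)| ≤ K * p * (a : ℝ) ^ (ε * p) := by
  obtain ⟨K, hK, hf⟩ := facts P hP h2 ε hε
  refine ⟨K + 1, by linarith, ?_⟩
  intro a ha p hp x hx
  have har : (3 : ℝ) ≤ a := by exact_mod_cast ha.three
  by_contra hcon
  push Not at hcon
  have hp1 : (1 : ℝ) ≤ p := by exact_mod_cast hp
  set E : ℝ := (a : ℝ) ^ (ε * p) with hE
  have hE1 : 1 ≤ E := Real.one_le_rpow (by linarith) (by positivity)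
  set B : ℝ := (K + 1) * p * E with hBdef
  have hB : 1 ≤ B := by
    rw [hBdef]
    have : 1 ≤ (K + 1) * p := by nlinarith
    nlinarith
  have hB0 : 0 < B := by linarith
  set b : ℕ → Bool := fun i => par ((T a)^[i] x)
  have h1 := log_sum ha.three hB x p hcon
  rw [hx, sub_self, zero_add] at h1
  have h3 := (hf a ha p (O b p) hp (O_le b p)).2
  have h4 : 1 ≤ K * E * (p / B) := h3.trans (mul_le_mul_of_nonneg_left h1 (by positivity))
  have h5 : K * E * (p / B) = K * p * E / B := by ring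
  rw [h5, le_div_iff₀ hB0, one_mul, hBdef] at h4
  have : 0 < (p : ℝ) * E := by positivity
  nlinarith

/-- the number of the periodic points with given denominator -/
theorem card_den (P : Finset ℕ) (hP : ∀ q ∈ P, q.Prime) (h2 : 2 ∉ P) (ε : ℝ) (hε : 0 < ε) :
    ∃ K : ℝ, 1 ≤ K ∧ ∀ a : ℕ, Good P a → ∀ (p : ℕ) (hp : 1 ≤ p) (d : ℕ), 1 ≤ d →
    (((per a hp).filter fun x => x.den = d).card : ℝ) ≤ K * (p : ℝ) ^ 2 * (a : ℝ) ^ (ε * p) * d := by
  classical
  obtain ⟨A, hA, hs⟩ := exists_small P hP h2 ε hε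
  refine ⟨3 * A, by linarith, fun a ha p hp d hd => ?_⟩
  have har : (3 : ℝ) ≤ a := by exact_mod_cast ha.three
  have hp1 : (1 : ℝ) ≤ p := by exact_mod_cast hp
  have hd1 : (1 : ℝ) ≤ d := by exact_mod_cast hd
  set E : ℝ := (a : ℝ) ^ (ε * p) with hE
  have hE1 : 1 ≤ E := Real.one_le_rpow (by linarith) (by positivity)
  set B : ℝ := A * p * E with hB
  have hB1 : 1 ≤ B := by
    rw [hB]
    have : 1 ≤ A * p := by nlinarith
    nlinarith
  set F := (per a hp).filter fun x => x.den = d with hF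
  have hFp : ∀ x ∈ F, IsPer a p x ∧ x.den = d := fun x hx => by
    rw [hF, mem_filter] at hx
    exact ⟨(mem_per ha.odd hp).1 hx.1, hx.2⟩
  have hch : ∀ x : ℚ, ∃ i : ℕ, x ∈ F → i < p ∧ |(((T a)^[i] x : ℚ) : ℝ)| ≤ B := by
    intro x
    by_cases hx : x ∈ F
    · obtain ⟨i, hi, h⟩ := hs a ha p hp x (hFp x hx).1.2
      exact ⟨i, fun _ => ⟨hi, h⟩⟩
    · exact ⟨0, fun h => absurd h hx⟩
  choose ι hι using hch
  set N : ℤ := ⌊B * d⌋ with hN
  have hcard : F.card ≤ (Finset.range p ×ˢ Finset.Icc (-N) N).card := by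
    refine Finset.card_le_card_of_injOn (fun x => (ι x, ((T a)^[ι x] x).num)) ?_ ?_
    · intro x hx
      have hx' : x ∈ F := hx
      obtain ⟨h1, h2⟩ := hι x hx'
      obtain ⟨h3, h4⟩ := hFp x hx'
      have hden : ((T a)^[ι x] x).den = d := by rw [den_iter_eq ha.odd h3 h1.le, h4]
      have h5 : |(((T a)^[ι x] x).num : ℝ)| ≤ B * d := by
        have h6 : (((T a)^[ι x] x : ℚ) : ℝ) = (((T a)^[ι x] x).num : ℝ) / d := by
          conv_lhs => rw [← Rat.num_div_den ((T a)^[ι x] x)]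
          rw [hden]
          push_cast
          rfl
        rw [h6, abs_div, abs_of_pos (show (0 : ℝ) < d by linarith), div_le_iff₀ (by linarith)] at h2
        exact h2
      have h7 := abs_le.1 h5
      have h8 : ((T a)^[ι x] x).num ≤ N := Int.le_floor.2 h7.2
      have h9 : -((T a)^[ι x] x).num ≤ N := Int.le_floor.2 (by push_cast; linarith)
      simp only [coe_product, Set.mem_prod, coe_range, Set.mem_Iio, coe_Icc, Set.mem_Icc]
      exact ⟨h1, by linarith, h8⟩
    · intro x hx y hy hxy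
      have hx' : x ∈ F := hx
      have hy' : y ∈ F := hy
      simp only [Prod.mk.injEq] at hxy
      obtain ⟨h1, h2⟩ := hxy
      have e1 : ((T a)^[ι x] x).den = d := by
        rw [den_iter_eq ha.odd (hFp x hx').1 (hι x hx').1.le, (hFp x hx').2]
      have e2 : ((T a)^[ι y] y).den = d := by
        rw [den_iter_eq ha.odd (hFp y hy').1 (hι y hy').1.le, (hFp y hy').2]
      have e3 : (T a)^[ι x] x = (T a)^[ι y] y := Rat.ext h2 (e1.trans e2.symm)
      rw [eq_iter (hFp x hx').1 (hι x hx').1.le, eq_iter (hFp y hy').1 (hι y hy').1.le, e3, h1]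
  rw [card_product, card_range, Int.card_Icc] at hcard
  have hN0 : 0 ≤ N := Int.floor_nonneg.2 (by positivity)
  have hNle : (N : ℝ) ≤ B * d := Int.floor_le _
  have h10 : (((N + 1 - (-N)).toNat : ℕ) : ℝ) = 2 * N + 1 := by
    have : (((N + 1 - (-N)).toNat : ℕ) : ℤ) = 2 * N + 1 := by
      rw [Int.toNat_of_nonneg (by omega)]; ring
    exact_mod_cast this
  have h11 : (F.card : ℝ) ≤ p * (((N + 1 - (-N)).toNat : ℕ) : ℝ) := by exact_mod_cast hcard
  rw [h10] at h11
  have hBd : 1 ≤ B * d := by nlinarith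
  calc (F.card : ℝ) ≤ p * (2 * N + 1) := h11
    _ ≤ p * (3 * (B * d)) := by
        apply mul_le_mul_of_nonneg_left _ (by linarith)
        linarith
    _ = 3 * A * (p : ℝ) ^ 2 * E * d := by rw [hB]; ring

end Pool.Agent.U339.SA
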